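import Mathlib
import Pool.Agent.TwoClub.MaxParts
import Pool.Agent.TwoClub.Glue

/-!
# Maximum density graph partitions into parts of diameter at most two
-/

set_option autoImplicit false

namespace Pool.Agent.Results.MP_9c5a5c_co.TwoClubPartitions

open Finset TwoClub

universe u

/-- Every finite graph has a partition of maximum density all of whose parts induce connected
graphs of diameter at most `2`. Every partition which has the maximum number of parts among the
partitions of maximum density has this property. The reason: a graph with two vertices at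
distance at least `3` (in particular a disconnected one) can be split into two nonempty parts
without loss of density. -/
theorem result {V : Type u} [Fintype V] [DecidableEq V] (G : SimpleGraph V) :
    (∃ P : Finpartition (univ : Finset V), IsOptimal G P ∧ ∀ S ∈ P.parts, IsTwoClub G S) ∧
    (∀ P : Finpartition (univ : Finset V), IsOptimal G P →
      (∀ P' : Finpartition (univ : Finset V), IsOptimal G P' → #P'.parts ≤ #P.parts) →
      ∀ S ∈ P.parts, IsTwoClub G S) ∧
    (∀ u v : V, u ≠ v → ¬ G.Adj u v → (∀ w : V, ¬ (G.Adj u w ∧ G.Adj w v)) →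
      ∃ S : Finset V, S.Nonempty ∧ Sᶜ.Nonempty ∧
        (edgesIn G univ : ℝ) / (Fintype.card V : ℝ) ≤
          (edgesIn G S : ℝ) / (#S : ℝ) + (edgesIn G Sᶜ : ℝ) / (#Sᶜ : ℝ)) := by
  have h : ∀ (U : Finset V) (u v : V), Solid G 0 U → ¬ Far G U u v :=
    fun _ _ _ hs => hs.not_far
  refine ⟨?_, fun P hP hmax => twoClub_of_max G h hP hmax, fun u v h1 h2 h3 =>
    exists_good_split G h h1 h2 h3⟩
  obtain ⟨P, hP, hmax⟩ := exists_max G
  exact ⟨P, hP, twoClub_of_max G h hP hmax⟩

end Pool.Agent.Results.MP_9c5a5c_co.TwoClubPartitions
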